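import Pool.Agent.Helper66.E7.Defs

/-!
# Project 7E: blocks F and FB
-/

set_option autoImplicit false

open Complex Filter Topology MeasureTheory Set
open Pool.Agent.Helper71.MR
open Pool.Agent.Helper18.ES (mu mu_le)

namespace Pool.Agent.E7

theorem f_qint : IntegrableOn (fun y : ℝ => y ^ (-(1 / 4) : ℝ)) (Ioc 0 1) := by
  have h := intervalIntegral.intervalIntegrable_rpow' (a := 0) (b := 1) (r := -(1 / 4)) (by norm_num)
  rwa [intervalIntegrable_iff_integrableOn_Ioc_of_le zero_le_one] at h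

theorem f_qval : ∫ y in Ioc (0:ℝ) 1, y ^ (-(1 / 4) : ℝ) = 4 / 3 := by
  rw [← intervalIntegral.integral_of_le zero_le_one, integral_rpow (by left; norm_num)]
  norm_num

theorem f_rpow {z y : ℝ} (hz : 0 ≤ z) (hy : 0 < y) : (z / y) ^ (1 / 4 : ℝ) = z ^ (1 / 4 : ℝ) * y ^ (-(1 / 4) : ℝ) := by
  rw [Real.div_rpow hz hy.le, Real.rpow_neg hy.le, div_eq_mul_inv]

theorem f_cin_le {a y : ℝ} (ha : 0 ≤ a) (hy : 0 < y) (T f : ℝ) :
    ‖Cin (a / y) * Real.sin (2 * Real.pi * T * y + f)‖ ≤ 8 * a ^ (1 / 4 : ℝ) * y ^ (-(1 / 4) : ℝ) := by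
  rw [norm_mul, Real.norm_of_nonneg (Cin_nonneg _), Real.norm_eq_abs]
  have h1 := Cin_le_rt (z := a / y) (by positivity)
  rw [f_rpow ha hy] at h1
  have h2 := Real.abs_sin_le_one (2 * Real.pi * T * y + f)
  calc Cin (a / y) * |Real.sin (2 * Real.pi * T * y + f)| ≤ Cin (a / y) * 1 :=
        mul_le_mul_of_nonneg_left h2 (Cin_nonneg _)
    _ ≤ _ := by rw [mul_one]; refine h1.trans (le_of_eq (by ring))

theorem f_arg (z y k : ℝ) : 2 * Real.pi * (z / y) / k = 2 * Real.pi * z / k / y := by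
  rw [← mul_div_assoc, div_div, div_div, mul_comm y k]

theorem f_meas (a T f : ℝ) : Measurable (fun y : ℝ => Cin (a / y) * Real.sin (2 * Real.pi * T * y + f)) := by
  have := Cin_meas
  fun_prop

theorem f_int {a : ℝ} (ha : 0 ≤ a) (T f : ℝ) :
    IntegrableOn (fun y : ℝ => Cin (a / y) * Real.sin (2 * Real.pi * T * y + f)) (Ioc 0 1) := by
  refine Integrable.mono' (f_qint.const_mul (8 * a ^ (1 / 4 : ℝ))) (f_meas a T f).aestronglyMeasurable ?_
  filter_upwards [self_mem_ae_restrict measurableSet_Ioc] with y hy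
  exact f_cin_le ha hy.1 T f

theorem stmtFB : StmtFB := by
  intro T f a hT ha
  unfold BB
  have hpi := Real.pi_pos
  have hpi2 := Real.pi_lt_d2
  have hr : 0 ≤ a ^ (1 / 4 : ℝ) := Real.rpow_nonneg ha _
  have h1 : |Real.cos (2 * Real.pi * T + f) * Cin a| ≤ 8 * a ^ (1 / 4 : ℝ) := by
    rw [abs_mul, abs_of_nonneg (Cin_nonneg a)]
    calc |Real.cos (2 * Real.pi * T + f)| * Cin a ≤ 1 * Cin a :=
          mul_le_mul_of_nonneg_right (Real.abs_cos_le_one _) (Cin_nonneg a)
      _ ≤ _ := by rw [one_mul]; exact Cin_le_rt ha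
  have h2 : |∫ y in Ioc (0:ℝ) 1, Cin (a / y) * Real.sin (2 * Real.pi * T * y + f)| ≤
      8 * a ^ (1 / 4 : ℝ) * (4 / 3) := by
    rw [← f_qval, ← integral_const_mul, ← Real.norm_eq_abs]
    apply norm_integral_le_of_norm_le (f_qint.const_mul _)
    filter_upwards [self_mem_ae_restrict measurableSet_Ioc] with y hy
    exact f_cin_le ha hy.1 T f
  refine (abs_add_le _ _).trans ?_
  rw [abs_mul (2 * Real.pi * T), abs_of_nonneg (by positivity : 0 ≤ 2 * Real.pi * T)]
  calc _ ≤ 8 * a ^ (1 / 4 : ℝ) + 2 * Real.pi * T * (8 * a ^ (1 / 4 : ℝ) * (4 / 3)) := by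
        apply add_le_add h1
        exact mul_le_mul_of_nonneg_left h2 (by positivity)
    _ = (8 + 64 / 3 * (Real.pi * T)) * a ^ (1 / 4 : ℝ) := by ring
    _ ≤ _ := by
        apply mul_le_mul_of_nonneg_right _ hr
        nlinarith

theorem f_sub (g : ℝ → ℝ) : ∫ v in Ioi (0:ℝ), Real.exp (-v) * g (Real.exp (-v)) = ∫ y in Ioc (0:ℝ) 1, g y := by
  have h := integral_image_eq_integral_abs_deriv_smul (s := Ioi (0:ℝ)) (f := fun v => Real.exp (-v))
    (f' := fun v => -Real.exp (-v)) measurableSet_Ioi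
    (fun x _ => by
      have h1 := (Real.hasDerivAt_exp (-x)).comp x (hasDerivAt_neg x)
      rw [mul_neg_one] at h1
      exact h1.hasDerivWithinAt)
    (fun x _ y _ hxy => by
      have := Real.exp_injective hxy
      linarith) g
  have himg : (fun v => Real.exp (-v)) '' Ioi (0:ℝ) = Ioo 0 1 := by
    ext y
    constructor
    · rintro ⟨v, hv, rfl⟩
      have hv' : 0 < v := hv
      refine ⟨Real.exp_pos _, ?_⟩
      rw [Real.exp_lt_one_iff]
      linarith
    · rintro ⟨h1, h2⟩
      refine ⟨-Real.log y, ?_, ?_⟩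
      · have := Real.log_neg h1 h2
        show 0 < -Real.log y
        linarith
      · show Real.exp (- -Real.log y) = y
        rw [neg_neg, Real.exp_log h1]
  rw [himg] at h
  rw [integral_Ioc_eq_integral_Ioo, h]
  apply integral_congr_ae
  filter_upwards with v
  rw [abs_neg, abs_of_pos (Real.exp_pos _), smul_eq_mul]

theorem f_hasSum {z : ℝ} (hz : 0 < z) (T f : ℝ) :
    HasSum (fun k : ℕ => mu k / k * ∫ y in Ioc (0:ℝ) 1, Cin (2 * Real.pi * z / k / y) * Real.sin (2 * Real.pi * T * y + f))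
      (∫ y in Ioc (0:ℝ) 1, Qf (z / y) * Real.sin (2 * Real.pi * T * y + f)) := by
  have hb : ∀ k : ℕ, ∀ y : ℝ, 0 < y → ‖mu k / k * (Cin (2 * Real.pi * z / k / y) * Real.sin (2 * Real.pi * T * y + f))‖ ≤
      16 * z ^ (1 / 4 : ℝ) * (1 / (k : ℝ) ^ (5 / 4 : ℝ)) * y ^ (-(1 / 4) : ℝ) := by
    intro k y hy
    have h1 := Qf_term_rt (z := z / y) (by positivity) k
    rw [f_rpow hz.le hy, f_arg] at h1
    rw [← mul_assoc, norm_mul, Real.norm_eq_abs, Real.norm_eq_abs]
    calc _ ≤ |mu k / k * Cin (2 * Real.pi * z / k / y)| * 1 :=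
          mul_le_mul_of_nonneg_left (Real.abs_sin_le_one _) (abs_nonneg _)
      _ ≤ _ := by rw [mul_one]; refine h1.trans (le_of_eq (by ring))
  have hi : ∀ k : ℕ, Integrable (fun y : ℝ => mu k / k * (Cin (2 * Real.pi * z / k / y) * Real.sin (2 * Real.pi * T * y + f)))
      (volume.restrict (Ioc 0 1)) := by
    intro k
    exact (f_int (by positivity) T f).const_mul _
  have hs : Summable (fun k : ℕ => ∫ y in Ioc (0:ℝ) 1,
      ‖mu k / k * (Cin (2 * Real.pi * z / k / y) * Real.sin (2 * Real.pi * T * y + f))‖) := by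
    apply Summable.of_nonneg_of_le (fun k => integral_nonneg (fun y => norm_nonneg _)) (fun k => ?_)
      (summable_54.mul_left (16 * z ^ (1 / 4 : ℝ) * (4 / 3)))
    calc _ ≤ ∫ y in Ioc (0:ℝ) 1, 16 * z ^ (1 / 4 : ℝ) * (1 / (k : ℝ) ^ (5 / 4 : ℝ)) * y ^ (-(1 / 4) : ℝ) := by
          apply integral_mono_of_nonneg
          · filter_upwards with y using norm_nonneg _
          · exact f_qint.const_mul _
          · filter_upwards [self_mem_ae_restrict measurableSet_Ioc] with y hy
            exact hb k y hy.1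
      _ = _ := by rw [integral_const_mul, f_qval]; ring
  have h := hasSum_integral_of_summable_integral_norm hi hs
  have e1 : (∫ y in Ioc (0:ℝ) 1, ∑' k : ℕ, mu k / k * (Cin (2 * Real.pi * z / k / y) * Real.sin (2 * Real.pi * T * y + f))) =
      ∫ y in Ioc (0:ℝ) 1, Qf (z / y) * Real.sin (2 * Real.pi * T * y + f) := by
    apply integral_congr_ae
    filter_upwards with y
    unfold Qf
    rw [← tsum_mul_right]
    congr 1
    ext k
    rw [f_arg, ← mul_assoc]
  rw [e1] at h
  simp_rw [integral_const_mul] at h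
  exact h

theorem f_sin (T f : ℝ) : 2 * Real.pi * T * ∫ y in Ioc (0:ℝ) 1, Real.sin (2 * Real.pi * T * y + f) =
    Real.cos f - Real.cos (2 * Real.pi * T + f) := by
  rw [← intervalIntegral.integral_of_le zero_le_one, ← intervalIntegral.integral_const_mul]
  have h : ∀ y ∈ uIcc (0:ℝ) 1, HasDerivAt (fun y => -Real.cos (2 * Real.pi * T * y + f))
      (2 * Real.pi * T * Real.sin (2 * Real.pi * T * y + f)) y := by
    intro y _
    have h1 : HasDerivAt (fun y => 2 * Real.pi * T * y + f) (2 * Real.pi * T) y := by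
      simpa using ((hasDerivAt_id y).const_mul (2 * Real.pi * T)).add_const f
    have h2 := (h1.cos).neg
    have h3 : -(-Real.sin (2 * Real.pi * T * y + f) * (2 * Real.pi * T)) =
        2 * Real.pi * T * Real.sin (2 * Real.pi * T * y + f) := by ring
    rw [h3] at h2
    exact h2
  rw [intervalIntegral.integral_eq_sub_of_hasDerivAt h (Continuous.intervalIntegrable (by fun_prop) _ _)]
  simp only [mul_one, mul_zero, zero_add]
  ring

theorem f_ms {t : ℝ} (ht : t < 0) : ms t = rr t := by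
  unfold ms mm
  have : Pool.Agent.Helper18.ES.S mu (Real.exp t) = 0 := by
    unfold Pool.Agent.Helper18.ES.S
    have h1 : ⌊Real.exp t⌋₊ = 0 := by
      rw [Nat.floor_eq_zero]
      exact Real.exp_lt_one_iff.2 ht
    rw [h1]
    simp
  rw [this]
  ring

theorem stmtF : StmtF := by
  intro T f u hu
  set z := Real.exp (-u) with hz
  have hz0 : 0 < z := Real.exp_pos _
  have hS := f_hasSum hz0 T f
  have hQ := (Qf_summable hz0.le).hasSum
  have hBB : HasSum (fun k : ℕ => mu k / k * BB T f (2 * Real.pi * z / k))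
      (Real.cos (2 * Real.pi * T + f) * Qf z +
        2 * Real.pi * T * ∫ y in Ioc (0:ℝ) 1, Qf (z / y) * Real.sin (2 * Real.pi * T * y + f)) := by
    have h := (hQ.mul_left (Real.cos (2 * Real.pi * T + f))).add (hS.mul_left (2 * Real.pi * T))
    have e : (fun k : ℕ => mu k / k * BB T f (2 * Real.pi * z / k)) = fun k : ℕ =>
        Real.cos (2 * Real.pi * T + f) * (mu k / k * Cin (2 * Real.pi * z / k)) + 2 * Real.pi * T *
          (mu k / k * ∫ y in Ioc (0:ℝ) 1, Cin (2 * Real.pi * z / k / y) * Real.sin (2 * Real.pi * T * y + f)) := by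
      ext k
      unfold BB
      ring
    rw [e]
    exact h
  refine ⟨hBB.summable, ?_⟩
  rw [hBB.tsum_eq]
  unfold FT
  have hint : (∫ v in Ioi (0:ℝ), Real.exp (-(3 / 2 * v)) * Real.sin (2 * Real.pi * T * Real.exp (-v) + f) * ms (u - v)) =
      Real.exp (-(u / 2)) * ((2 * ∫ y in Ioc (0:ℝ) 1, Real.sin (2 * Real.pi * T * y + f)) -
        2 * ∫ y in Ioc (0:ℝ) 1, Qf (z / y) * Real.sin (2 * Real.pi * T * y + f)) := by
    have e1 : (∫ v in Ioi (0:ℝ), Real.exp (-(3 / 2 * v)) * Real.sin (2 * Real.pi * T * Real.exp (-v) + f) * ms (u - v)) =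
        ∫ v in Ioi (0:ℝ), Real.exp (-v) * (fun y => Real.exp (-(u / 2)) *
          (2 * Real.sin (2 * Real.pi * T * y + f) - 2 * (Qf (z / y) * Real.sin (2 * Real.pi * T * y + f)))) (Real.exp (-v)) := by
      apply setIntegral_congr_fun measurableSet_Ioi
      intro v hv
      have hv0 : 0 < v := hv
      show Real.exp (-(3 / 2 * v)) * Real.sin (2 * Real.pi * T * Real.exp (-v) + f) * ms (u - v) =
        Real.exp (-v) * (Real.exp (-(u / 2)) * (2 * Real.sin (2 * Real.pi * T * Real.exp (-v) + f) -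
          2 * (Qf (z / Real.exp (-v)) * Real.sin (2 * Real.pi * T * Real.exp (-v) + f))))
      rw [f_ms (by linarith)]
      unfold rr
      have e2 : z / Real.exp (-v) = Real.exp (-(u - v)) := by
        rw [hz, ← Real.exp_sub]; congr 1; ring
      rw [e2]
      have e3 : Real.exp (-(3 / 2 * v)) * Real.exp (-(u - v) / 2) = Real.exp (-v) * Real.exp (-(u / 2)) := by
        rw [← Real.exp_add, ← Real.exp_add]; congr 1; ring
      linear_combination (Real.sin (2 * Real.pi * T * Real.exp (-v) + f) * (2 - 2 * Qf (Real.exp (-(u - v))))) * e3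
    rw [e1, f_sub (fun y => Real.exp (-(u / 2)) *
          (2 * Real.sin (2 * Real.pi * T * y + f) - 2 * (Qf (z / y) * Real.sin (2 * Real.pi * T * y + f)))),
      integral_const_mul, integral_sub, integral_const_mul, integral_const_mul]
    · apply Integrable.const_mul
      apply IntegrableOn.mono_set (t := Icc 0 1) _ Ioc_subset_Icc_self
      exact Continuous.integrableOn_Icc (by fun_prop)
    · apply Integrable.const_mul
      refine Integrable.mono' (f_qint.const_mul (C54 * z ^ (1 / 4 : ℝ))) ?_ ?_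
      · have := Qf_meas
        apply Measurable.aestronglyMeasurable
        fun_prop
      · filter_upwards [self_mem_ae_restrict measurableSet_Ioc] with y hy
        have hy0 : 0 < y := hy.1
        rw [norm_mul, Real.norm_eq_abs, Real.norm_eq_abs]
        have h1 := Qf_le (z := z / y) (by positivity)
        rw [f_rpow hz0.le hy0] at h1
        calc _ ≤ |Qf (z / y)| * 1 := mul_le_mul_of_nonneg_left (Real.abs_sin_le_one _) (abs_nonneg _)
          _ ≤ _ := by rw [mul_one]; refine h1.trans (le_of_eq (by ring))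
  rw [hint, f_ms hu]
  unfold rr
  rw [← hz, show -u / 2 = -(u / 2) by ring]
  linear_combination (2 * Real.exp (-(u / 2))) * f_sin T f

end Pool.Agent.E7
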